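import Pool.Agent.V8H71.HN.Poly

/-!
# One Betti number
-/

set_option autoImplicit false

open Finset Polynomial

noncomputable section

namespace Pool.Agent.V8H71.HN

variable {T : VarClass}

/-- the Betti number `b_j`, the sum of the `h^{p,q}` with `p + q = j` -/
def VarClass.betti (T : VarClass) (X : T.V) (j : ℕ) : ℕ :=
  ∑ i ∈ antidiagonal j, T.h X i.1 i.2

/-- For derived equivalent varieties of dimension `N` the Betti number `b_j` is the same modulo `m`
(the same, if `m = 0`). -/
def VarClass.OneBettiMod (T : VarClass) (m N j : ℕ) : Prop :=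
  ∀ X Y, T.DE X Y → T.dim X = N → T.betti X j ≡ T.betti Y j [MOD m]

theorem coeff_eval_X (P : Polynomial (Polynomial ℤ)) (j : ℕ) :
    (eval X P).coeff j = ∑ i ∈ antidiagonal j, (P.coeff i.1).coeff i.2 := by
  induction P using Polynomial.induction_on' with
  | add p q hp hq =>
    rw [eval_add, coeff_add, hp, hq, ← Finset.sum_add_distrib]
    refine Finset.sum_congr rfl fun i _ => ?_
    rw [coeff_add, coeff_add]
  | monomial k a =>
    rw [eval_monomial, coeff_mul_X_pow']
    simp only [coeff_monomial]
    by_cases h : k ≤ j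
    · rw [if_pos h, Finset.sum_eq_single (k, j - k)]
      · simp
      · rintro ⟨u, v⟩ hi hne
        rw [HasAntidiagonal.mem_antidiagonal] at hi
        rw [if_neg, coeff_zero]
        rintro rfl
        apply hne
        simp only at hi
        rw [Prod.mk.injEq]
        exact ⟨rfl, by omega⟩
      · intro hn
        exact absurd (HasAntidiagonal.mem_antidiagonal.mpr (by simp only; omega)) hn
    · rw [if_neg h]
      symm
      refine Finset.sum_eq_zero fun i hi => ?_
      rw [HasAntidiagonal.mem_antidiagonal] at hi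
      rw [if_neg (by omega), coeff_zero]

/-- coefficients extended by zero -/
def cz (D : Polynomial ℤ) (i : ℤ) : ℤ := if 0 ≤ i then D.coeff i.toNat else 0

theorem coeff_mul_pow_cz (D : Polynomial ℤ) (s j : ℕ) :
    (D * X ^ s).coeff j = cz D ((j : ℤ) - s) := by
  rw [coeff_mul_X_pow']
  unfold cz
  by_cases h : s ≤ j
  · rw [if_pos h, if_pos (by omega), show j - s = ((j : ℤ) - s).toNat by omega]
  · rw [if_neg h, if_neg (by omega)]

theorem ext1 {m n : ℤ} {c : ℤ → ℤ} {E : ℤ} (hm : Odd m ∨ m = 0)
    (h0 : ∀ i, i < 0 ∨ 2 * n < i → c i = 0) (hE : 0 ≤ E)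
    (rel : ∀ i, 0 ≤ i → i ≤ 2 * n → m ∣ 2 * c i + 2 * c (i + E)) : ∀ i, m ∣ c i := by
  have key : ∀ (t : ℕ) (i : ℤ), 2 * n < i + t → m ∣ c i := by
    intro t
    induction t with
    | zero =>
      intro i h
      rw [h0 i (by right; simpa using h)]
      exact dvd_zero m
    | succ t ih =>
      intro i h
      by_cases hr : i < 0 ∨ 2 * n < i
      · rw [h0 i hr]
        exact dvd_zero m
      · push Not at hr
        have h5 := rel i hr.1 hr.2
        rcases hE.eq_or_lt with rfl | hE
        · rw [add_zero] at h5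
          have h6 : m ∣ 2 * (2 * c i) := by
            convert h5 using 1
            ring
          exact dvd_two hm (dvd_two hm h6)
        · have h6 := ih (i + E) (by
            push_cast at h
            omega)
          have h8 := dvd_sub h5 (h6.mul_left 2)
          rw [add_sub_cancel_right] at h8
          exact dvd_two hm h8
  intro i
  exact key (2 * n - i + 1).toNat i (by
    have := Int.self_le_toNat (2 * n - i + 1)
    omega)

/-- **One Betti number decides.** -/
theorem one_betti (hT : T.Standard) (hB : T.HasBasic) {m n N j : ℕ} (hm : Odd m ∨ m = 0)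
    (hj : 2 * n ≤ j) (hj' : j + 2 * n ≤ 2 * N) (h : T.OneBettiMod m N j) :
    ∀ i, T.OneBettiMod m n i := by
  intro i Z W hZW hn
  have hnW : T.dim W = n := by rw [← hT.de_dim Z W hZW, hn]
  set D : Polynomial (Polynomial ℤ) := poly T ℤ Z - poly T ℤ W with hD
  have hb : ∀ (V : T.V) (j : ℕ), (eval X (poly T ℤ V)).coeff j = (T.betti V j : ℤ) := by
    intro V j
    rw [coeff_eval_X]
    unfold VarClass.betti
    push_cast
    exact Finset.sum_congr rfl fun i _ => coeff_poly hT ℤ V i.1 i.2
  have hDc : ∀ j : ℕ, (eval X D).coeff j = (T.betti Z j : ℤ) - T.betti W j := by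
    intro j
    rw [hD, eval_sub, coeff_sub, hb, hb]
  have hnN : n ≤ N := by omega
  -- the functional
  have fn : ∀ Q ∈ Rk T (N - n), (m : ℤ) ∣ (eval X D * eval X Q).coeff j := by
    intro Q hQ
    induction hQ using Submodule.span_induction with
    | mem Q hQ =>
      obtain ⟨V, hV, rfl⟩ := hQ
      rw [← eval_mul, hD, sub_mul, ← poly_prod hT, ← poly_prod hT, eval_sub, coeff_sub, hb, hb]
      have h1 := h (T.prod Z V) (T.prod W V) (hT.de_prod _ _ _ _ hZW (hB.refl V))
        (by rw [hT.dim_prod, hn, hV]; omega)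
      exact Nat.modEq_iff_dvd.mp h1.symm
    | zero => rw [eval_zero, mul_zero, coeff_zero]; exact dvd_zero _
    | add P Q _ _ h1 h2 => rw [eval_add, mul_add, coeff_add]; exact dvd_add h1 h2
    | smul c P _ h1 =>
      have e : eval X (c • P) = c • eval X P := by
        rw [zsmul_eq_mul, zsmul_eq_mul, eval_mul]
        congr 1
        exact eval_intCast
      rw [e, mul_smul_comm, coeff_smul, smul_eq_mul]
      exact h1.mul_left c
  have hv : ∀ (V : T.V), T.dim V = n → ∀ i, 2 * n < i → T.betti V i = 0 := by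
    intro V hV i hi
    unfold VarClass.betti
    refine Finset.sum_eq_zero fun l hl => ?_
    rw [HasAntidiagonal.mem_antidiagonal] at hl
    exact hT.vanish V _ _ (by rw [hV]; omega)
  have h0 : ∀ i : ℤ, i < 0 ∨ 2 * (n : ℤ) < i → cz (eval X D) i = 0 := by
    intro i hi
    unfold cz
    split_ifs with h1
    · rw [hDc, hv Z hn _ (by omega), hv W hnW _ (by omega)]
      simp
    · rfl
  -- duality
  have hdu : ∀ (V : T.V), T.dim V = n → ∀ i, i ≤ 2 * n → T.betti V i = T.betti V (2 * n - i) := by
    intro V hV i hi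
    unfold VarClass.betti
    have e : ∀ i, i ≤ 2 * n → ∑ l ∈ antidiagonal i, T.h V l.1 l.2 =
        ∑ l ∈ (antidiagonal i).filter (fun l => l.1 ≤ n ∧ l.2 ≤ n), T.h V l.1 l.2 := by
      intro i _
      rw [Finset.sum_filter]
      refine Finset.sum_congr rfl fun l _ => ?_
      split_ifs with h1
      · rfl
      · exact hT.vanish V _ _ (by rw [hV]; omega)
    rw [e i hi, e (2 * n - i) (by omega)]
    refine Finset.sum_nbij' (fun l => (n - l.1, n - l.2)) (fun l => (n - l.1, n - l.2))
      ?_ ?_ ?_ ?_ ?_
    · rintro ⟨u, v⟩ hl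
      simp only [mem_filter, HasAntidiagonal.mem_antidiagonal] at hl ⊢
      omega
    · rintro ⟨u, v⟩ hl
      simp only [mem_filter, HasAntidiagonal.mem_antidiagonal] at hl ⊢
      omega
    · rintro ⟨u, v⟩ hl
      simp only [mem_filter, HasAntidiagonal.mem_antidiagonal] at hl
      simp only [Prod.mk.injEq]
      omega
    · rintro ⟨u, v⟩ hl
      simp only [mem_filter, HasAntidiagonal.mem_antidiagonal] at hl
      simp only [Prod.mk.injEq]
      omega
    · rintro ⟨u, v⟩ hl
      simp only [mem_filter, HasAntidiagonal.mem_antidiagonal] at hl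
      simp only
      rw [hT.serre V u v (by rw [hV]; omega) (by rw [hV]; omega), hV]
  have hd : ∀ i : ℤ, cz (eval X D) i = cz (eval X D) (2 * n - i) := by
    intro i
    by_cases h1 : 0 ≤ i ∧ i ≤ 2 * n
    · unfold cz
      rw [if_pos h1.1, if_pos (by omega), hDc, hDc, hdu Z hn _ (by omega), hdu W hnW _ (by omega),
        show (2 * (n : ℤ) - i).toNat = 2 * n - i.toNat by omega]
    · rw [h0 i (by omega), h0 _ (by omega)]
  have rel : ∀ i : ℤ, 0 ≤ i → i ≤ 2 * n →
      (m : ℤ) ∣ 2 * cz (eval X D) i + 2 * cz (eval X D) (i + 2 * ((N : ℤ) - j)) := by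
    intro i i1 i2
    -- choose `p + q = j - i` with `p, q ≤ N - n`
    set s : ℕ := j - i.toNat with hs
    have h1 := fn _ (mon_mem hT hB (k := N - n) (p := min s (N - n)) (q := s - min s (N - n))
      (by omega) (by omega))
    unfold mon at h1
    simp only [eval_add, eval_mul, eval_pow, eval_X, eval_C, mul_add, coeff_add, ← pow_add,
      coeff_mul_pow_cz] at h1
    have e1 : (j : ℤ) - ((min s (N - n) + (s - min s (N - n)) : ℕ) : ℤ) = i := by omega
    have e2 : (j : ℤ) - ((s - min s (N - n) + min s (N - n) : ℕ) : ℤ) = i := by omega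
    have e3 : (j : ℤ) - ((N - n - min s (N - n) + (N - n - (s - min s (N - n))) : ℕ) : ℤ) =
        2 * n - (i + 2 * ((N : ℤ) - j)) := by omega
    have e4 : (j : ℤ) - ((N - n - (s - min s (N - n)) + (N - n - min s (N - n)) : ℕ) : ℤ) =
        2 * n - (i + 2 * ((N : ℤ) - j)) := by omega
    rw [e1, e2, e3, e4, ← hd] at h1
    convert h1 using 1
    ring
  have hm' : Odd (m : ℤ) ∨ (m : ℤ) = 0 := by
    rcases hm with hm | rfl
    · exact Or.inl (by exact_mod_cast hm)
    · exact Or.inr rfl
  have fin : ∀ i, (m : ℤ) ∣ cz (eval X D) i := by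
    rcases le_total (j : ℤ) N with hjN | hjN
    · exact ext1 hm' h0 (E := 2 * ((N : ℤ) - j)) (by omega) rel
    · refine ext1 hm' h0 (E := 2 * ((j : ℤ) - N)) (by omega) fun i i1 i2 => ?_
      have h1 := rel (2 * n - i) (by omega) (by omega)
      rw [← hd i, hd (2 * n - i + _)] at h1
      convert h1 using 3
      congr 1
      ring
  have h1 := fin i
  unfold cz at h1
  rw [if_pos (Int.natCast_nonneg i), Int.toNat_natCast, hDc] at h1
  exact (Nat.modEq_iff_dvd.mpr h1).symm

end Pool.Agent.V8H71.HN
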