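import Mathlib

/-!
# Classes of smooth projective varieties with Hodge numbers and derived equivalences
-/

set_option autoImplicit false

open Finset

noncomputable section

namespace Pool.Agent.V8H71.HN

/-- Data of a class of smooth projective complex varieties. -/
structure VarClass where
  /-- the varieties -/
  V : Type
  /-- the dimension -/
  dim : V → ℕ
  /-- the Hodge numbers `h^{p,q}` -/
  h : V → ℕ → ℕ → ℕ
  /-- the product of varieties -/
  prod : V → V → V
  /-- `D(X) ≃ D(Y)` -/
  DE : V → V → Prop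

/-- Standard facts: `h^{p,q}(X) = 0` unless `p, q ≤ dim X`, `h^{0,0} = 1` (connectedness), Hodge
symmetry, Serre duality, dimensions and Hodge numbers of products (Künneth), and: derived
equivalence is symmetric, preserves dimensions, and products of derived equivalent varieties are
derived equivalent. -/
structure VarClass.Standard (T : VarClass) : Prop where
  vanish : ∀ X p q, T.dim X < p ∨ T.dim X < q → T.h X p q = 0
  conn : ∀ X, T.h X 0 0 = 1
  hodge : ∀ X p q, T.h X p q = T.h X q p
  serre : ∀ X p q, p ≤ T.dim X → q ≤ T.dim X →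
    T.h X p q = T.h X (T.dim X - p) (T.dim X - q)
  dim_prod : ∀ X Y, T.dim (T.prod X Y) = T.dim X + T.dim Y
  kunneth : ∀ X Y p q, T.h (T.prod X Y) p q =
    ∑ i ∈ antidiagonal p, ∑ j ∈ antidiagonal q, T.h X i.1 j.1 * T.h Y i.2 j.2
  symm : ∀ X Y, T.DE X Y → T.DE Y X
  de_dim : ∀ X Y, T.DE X Y → T.dim X = T.dim Y
  de_prod : ∀ X Y X' Y', T.DE X Y → T.DE X' Y' → T.DE (T.prod X X') (T.prod Y Y')

/-- The class contains a point, the projective line, the projective plane and an elliptic curve
(which are derived equivalent to themselves). -/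
structure VarClass.HasBasic (T : VarClass) : Prop where
  refl : ∀ X, T.DE X X
  point : ∃ X, T.dim X = 0
  line : ∃ X, T.dim X = 1 ∧ T.h X 0 1 = 0
  plane : ∃ X, T.dim X = 2 ∧ T.h X 0 1 = 0 ∧ T.h X 0 2 = 0 ∧ T.h X 1 1 = 1
  elliptic : ∃ X, T.dim X = 1 ∧ T.h X 0 1 = 1

/-- the sum of all Hodge numbers -/
def VarClass.total (T : VarClass) (X : T.V) : ℕ :=
  ∑ p ∈ range (T.dim X + 1), ∑ q ∈ range (T.dim X + 1), T.h X p q

/-- All Hodge numbers of derived equivalent varieties agree. -/
def VarClass.Invariance (T : VarClass) : Prop :=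
  ∀ X Y, T.DE X Y → ∀ p q, T.h X p q = T.h Y p q

/-- Derived equivalent varieties of dimension `n` have the same Hodge numbers modulo `m` (the same
Hodge numbers, if `m = 0`). -/
def VarClass.InvarianceMod (T : VarClass) (m n : ℕ) : Prop :=
  ∀ X Y, T.DE X Y → T.dim X = n → ∀ p q, T.h X p q ≡ T.h Y p q [MOD m]

/-- For derived equivalent varieties of dimension `N` the number `h^{a,b}` is the same modulo `m`
(the same, if `m = 0`). -/
def VarClass.OneNumberMod (T : VarClass) (m N a b : ℕ) : Prop :=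
  ∀ X Y, T.DE X Y → T.dim X = N → T.h X a b ≡ T.h Y a b [MOD m]

/-- For all `ε > 0` the Hodge numbers `h^{p,q}` of derived equivalent `X`, `Y` of dimension `n` with
`|p - n/2|, |q - n/2| ≤ δ n/2` agree up to factors `K_ε b ^ ε`, `b` the sum of all Hodge numbers. -/
def VarClass.RoughMiddle (T : VarClass) (δ : ℝ) : Prop :=
  ∀ ε : ℝ, 0 < ε → ∃ K : ℝ, ∀ X Y, T.DE X Y → ∀ p q : ℕ,
    |2 * (p : ℝ) - T.dim X| ≤ δ * T.dim X → |2 * (q : ℝ) - T.dim X| ≤ δ * T.dim X →
    (T.h X p q : ℝ) ≤ K * (T.total X : ℝ) ^ ε * T.h Y p q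

end Pool.Agent.V8H71.HN
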