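import Mathlib

/-!
# An extremal argument
-/

set_option autoImplicit false

namespace Pool.Agent.V8H71.HN

/-- the relation satisfied by the differences of Hodge numbers -/
def Rel (m n : ℤ) (c : ℤ → ℤ → ℤ) (R E : ℤ) : Prop :=
  ∀ P Q : ℤ, 0 ≤ P → P ≤ n → 0 ≤ Q → Q ≤ n →
    m ∣ c P Q + c (P - R) (Q + R) + c (P + E) (Q + E) + c (P + E - R) (Q + E + R)

theorem dvd_two {m x : ℤ} (hm : Odd m ∨ m = 0) (h : m ∣ 2 * x) : m ∣ x := by
  rcases hm with hm | rfl
  · exact (Int.isCoprime_iff_gcd_eq_one.mpr (by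
      have := Int.odd_iff.mp hm
      obtain ⟨k, rfl⟩ := hm
      rw [Int.gcd_comm]
      have h1 : IsCoprime (2 : ℤ) (2 * k + 1) := ⟨-k, 1, by ring⟩
      exact Int.isCoprime_iff_gcd_eq_one.mp h1)).dvd_of_dvd_mul_left h
  · rw [zero_dvd_iff] at h ⊢
    omega

theorem ext_pos {m n : ℤ} {c : ℤ → ℤ → ℤ} {R E : ℤ}
    (hm : (Odd m ∨ m = 0) ∨ (R ≠ 0 ∧ E ≠ 0)) (h0 : ∀ P Q, P < 0 ∨ Q < 0 ∨ n < P ∨ n < Q → c P Q = 0) (hR : 0 ≤ R) (hE : 0 ≤ E)
    (rel : Rel m n c R E) : ∀ P Q, m ∣ c P Q := by
  have key : ∀ (t : ℕ) (P Q : ℤ), n < Q + t → m ∣ c P Q := by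
    intro t
    induction t with
    | zero =>
      intro P Q h
      rw [h0 P Q (by right; right; right; simpa using h)]
      exact dvd_zero m
    | succ t ih =>
      intro P Q h
      by_cases hr : P < 0 ∨ Q < 0 ∨ n < P ∨ n < Q
      · rw [h0 P Q hr]
        exact dvd_zero m
      · push Not at hr
        obtain ⟨h1, h2, h3, h4⟩ := hr
        have h5 := rel P Q h1 h3 h2 h4
        have big : ∀ P' Q' : ℤ, Q < Q' → m ∣ c P' Q' := fun P' Q' hQ => ih P' Q' (by
          push_cast at h
          omega)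
        rcases hR.eq_or_lt with rfl | hR
        · have hm2 := hm.resolve_right fun h => h.1 rfl
          rcases hE.eq_or_lt with rfl | hE
          · simp only [sub_zero, add_zero] at h5
            have h6 : m ∣ 2 * (2 * c P Q) := by
              convert h5 using 1
              ring
            exact dvd_two hm2 (dvd_two hm2 h6)
          · simp only [sub_zero, add_zero] at h5
            have h6 := big (P + E) (Q + E) (by omega)
            have h7 : m ∣ 2 * c P Q := by
              have h8 := dvd_sub h5 (h6.mul_left 2)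
              have e : c P Q + c P Q + c (P + E) (Q + E) + c (P + E) (Q + E) -
                  2 * c (P + E) (Q + E) = 2 * c P Q := by ring
              rwa [e] at h8
            exact dvd_two hm2 h7
        · rcases hE.eq_or_lt with rfl | hE
          · have hm2 := hm.resolve_right fun h => h.2 rfl
            simp only [add_zero] at h5
            have h6 := big (P - R) (Q + R) (by omega)
            have h7 : m ∣ 2 * c P Q := by
              have h8 := dvd_sub h5 (h6.mul_left 2)
              have e : c P Q + c (P - R) (Q + R) + c P Q + c (P - R) (Q + R) -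
                  2 * c (P - R) (Q + R) = 2 * c P Q := by ring
              rwa [e] at h8
            exact dvd_two hm2 h7
          · have h6 := big (P - R) (Q + R) (by omega)
            have h7 := big (P + E) (Q + E) (by omega)
            have h8 := big (P + E - R) (Q + E + R) (by omega)
            have h9 := dvd_sub (dvd_sub (dvd_sub h5 h6) h7) h8
            have e : c P Q + c (P - R) (Q + R) + c (P + E) (Q + E) +
                c (P + E - R) (Q + E + R) - c (P - R) (Q + R) - c (P + E) (Q + E) -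
                c (P + E - R) (Q + E + R) = c P Q := by ring
            rwa [e] at h9
  intro P Q
  exact key (n - Q + 1).toNat P Q (by
    have := Int.self_le_toNat (n - Q + 1)
    omega)

theorem ext_all {m n : ℤ} {c : ℤ → ℤ → ℤ} {R E : ℤ}
    (hm : (Odd m ∨ m = 0) ∨ (R ≠ 0 ∧ E ≠ 0)) (h0 : ∀ P Q, P < 0 ∨ Q < 0 ∨ n < P ∨ n < Q → c P Q = 0)
    (hs : ∀ P Q, c P Q = c Q P) (hd : ∀ P Q, c P Q = c (n - P) (n - Q))
    (rel : Rel m n c R E) : ∀ P Q, m ∣ c P Q := by
  have swap : ∀ {R E : ℤ}, Rel m n c R E → Rel m n c (-R) E := by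
    intro R E h P Q h1 h2 h3 h4
    have h5 := h Q P h3 h4 h1 h2
    convert h5 using 1
    rw [hs P Q, hs (P - -R), hs (P + E), hs (P + E - -R)]
    simp only [sub_neg_eq_add, ← sub_eq_add_neg]
  have refl : ∀ {R E : ℤ}, Rel m n c R E → Rel m n c (-R) (-E) := by
    intro R E h P Q h1 h2 h3 h4
    have h5 := h (n - P) (n - Q) (by omega) (by omega) (by omega) (by omega)
    convert h5 using 1
    rw [hd P Q, hd (P - -R), hd (P + -E), hd (P + -E - -R)]
    have e1 : n - (P - -R) = n - P - R := by ring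
    have e2 : n - (Q + -R) = n - Q + R := by ring
    have e3 : n - (P + -E) = n - P + E := by ring
    have e4 : n - (Q + -E) = n - Q + E := by ring
    have e5 : n - (P + -E - -R) = n - P + E - R := by ring
    have e6 : n - (Q + -E + -R) = n - Q + E + R := by ring
    rw [e1, e2, e3, e4, e5, e6]
  have hR' : R ≠ 0 → -R ≠ 0 := neg_ne_zero.mpr
  have hE' : E ≠ 0 → -E ≠ 0 := neg_ne_zero.mpr
  rcases le_total 0 E with hE | hE
  · rcases le_total 0 R with hR | hR
    · exact ext_pos hm h0 hR hE rel
    · exact ext_pos (hm.imp_right fun h => ⟨hR' h.1, h.2⟩) h0 (neg_nonneg.mpr hR) hE (swap rel)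
  · rcases le_total 0 R with hR | hR
    · have h1 := swap (refl rel)
      rw [neg_neg] at h1
      exact ext_pos (hm.imp_right fun h => ⟨h.1, hE' h.2⟩) h0 hR (neg_nonneg.mpr hE) h1
    · exact ext_pos (hm.imp_right fun h => ⟨hR' h.1, hE' h.2⟩) h0 (neg_nonneg.mpr hR)
        (neg_nonneg.mpr hE) (refl rel)

end Pool.Agent.V8H71.HN
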