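import Pool.Agent.V8H71.HN.Poly

/-!
# Rough comparison of the Hodge numbers near the middle
-/

set_option autoImplicit false

open Finset Polynomial

noncomputable section

namespace Pool.Agent.V8H71.HN

variable {T : VarClass}

/-- the values of the Hodge polynomial -/
def F (T : VarClass) (Z : T.V) (x y : ℝ) : ℝ := ((poly T ℝ Z).eval (C x)).eval y

theorem F_eq (Z : T.V) (x y : ℝ) : F T Z x y =
    ∑ p ∈ range (T.dim Z + 1), ∑ q ∈ range (T.dim Z + 1), (T.h Z p q : ℝ) * (x ^ p * y ^ q) := by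
  unfold F poly
  simp only [eval_finsetSum, eval_mul, eval_C, eval_pow, eval_X, Finset.sum_mul]
  refine Finset.sum_congr rfl fun p _ => Finset.sum_congr rfl fun q _ => ?_
  ring

theorem F_prod (hT : T.Standard) (Z W : T.V) (x y : ℝ) :
    F T (T.prod Z W) x y = F T Z x y * F T W x y := by
  unfold F
  rw [poly_prod hT, eval_mul, eval_mul]

theorem F_total (Z : T.V) : F T Z 1 1 = T.total Z := by
  rw [F_eq]
  unfold VarClass.total
  push_cast
  refine Finset.sum_congr rfl fun p _ => Finset.sum_congr rfl fun q _ => ?_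
  rw [one_pow, one_pow, mul_one, mul_one]

theorem F_ge (hT : T.Standard) (Z : T.V) {x y : ℝ} (hx : 0 ≤ x) (hy : 0 ≤ y) :
    1 ≤ F T Z x y := by
  rw [F_eq]
  have h1 : (1 : ℝ) = (T.h Z 0 0 : ℝ) * (x ^ 0 * y ^ 0) := by simp [hT.conn]
  rw [h1]
  refine le_trans ?_ (Finset.single_le_sum (f := fun p => ∑ q ∈ range (T.dim Z + 1),
    (T.h Z p q : ℝ) * (x ^ p * y ^ q)) (fun p _ => Finset.sum_nonneg fun q _ => by positivity)
    (Finset.mem_range.mpr (Nat.succ_pos _) : 0 ∈ range (T.dim Z + 1)))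
  exact Finset.single_le_sum (f := fun q => (T.h Z 0 q : ℝ) * (x ^ 0 * y ^ q))
    (fun q _ => by positivity) (Finset.mem_range.mpr (Nat.succ_pos _) : 0 ∈ range (T.dim Z + 1))

theorem F_swap (hT : T.Standard) (Z : T.V) (x y : ℝ) : F T Z x y = F T Z y x := by
  rw [F_eq, F_eq, Finset.sum_comm]
  refine Finset.sum_congr rfl fun p _ => Finset.sum_congr rfl fun q _ => ?_
  rw [hT.hodge Z q p]
  ring

theorem F_cont (Z : T.V) : Continuous fun z : ℝ × ℝ => F T Z z.1 z.2 := by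
  simp only [F_eq]
  fun_prop

/-- powers -/
def pw (T : VarClass) (Z : T.V) : ℕ → T.V
  | 0 => Z
  | N + 1 => T.prod (pw T Z N) Z

theorem dim_pw (hT : T.Standard) (Z : T.V) (N : ℕ) : T.dim (pw T Z N) = (N + 1) * T.dim Z := by
  induction N with
  | zero => simp [pw]
  | succ N ih =>
    change T.dim (T.prod (pw T Z N) Z) = _
    rw [hT.dim_prod, ih]
    ring

theorem F_pw (hT : T.Standard) (Z : T.V) (N : ℕ) (x y : ℝ) :
    F T (pw T Z N) x y = F T Z x y ^ (N + 1) := by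
  induction N with
  | zero => simp [pw]
  | succ N ih =>
    change F T (T.prod (pw T Z N) Z) x y = _
    rw [F_prod hT, ih, ← pow_succ]

theorem de_pw (hT : T.Standard) {Z W : T.V} (h : T.DE Z W) (N : ℕ) :
    T.DE (pw T Z N) (pw T W N) := by
  induction N with
  | zero => exact h
  | succ N ih => exact hT.de_prod _ _ _ _ ih h

/-! ### the tails -/

/-- the bound for the tails -/
theorem tail (Z : T.V) {x y θ δ : ℝ} (hx : 0 < x) (hy : 0 < y) (hθ : 0 < θ) :
    F T Z x y ≤ (∑ p ∈ range (T.dim Z + 1), ∑ q ∈ range (T.dim Z + 1),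
        if |2 * (p : ℝ) - T.dim Z| ≤ δ * T.dim Z ∧ |2 * (q : ℝ) - T.dim Z| ≤ δ * T.dim Z then
          (T.h Z p q : ℝ) * (x ^ p * y ^ q) else 0) +
      (Real.exp (-(θ * (1 + δ) / 2 * T.dim Z)) * F T Z (x * Real.exp θ) y +
        Real.exp (θ * (1 - δ) / 2 * T.dim Z) * F T Z (x * Real.exp (-θ)) y +
        Real.exp (-(θ * (1 + δ) / 2 * T.dim Z)) * F T Z x (y * Real.exp θ) +
        Real.exp (θ * (1 - δ) / 2 * T.dim Z) * F T Z x (y * Real.exp (-θ))) := by
  simp only [F_eq, Finset.mul_sum]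
  rw [← Finset.sum_add_distrib, ← Finset.sum_add_distrib, ← Finset.sum_add_distrib,
    ← Finset.sum_add_distrib]
  refine Finset.sum_le_sum fun p _ => ?_
  rw [← Finset.sum_add_distrib, ← Finset.sum_add_distrib, ← Finset.sum_add_distrib,
    ← Finset.sum_add_distrib]
  refine Finset.sum_le_sum fun q _ => ?_
  set d : ℝ := (T.dim Z : ℝ) with hd
  have hh : (0 : ℝ) ≤ T.h Z p q := Nat.cast_nonneg _
  have pow1 : ∀ (z : ℝ) (s : ℝ) (k : ℕ), (z * Real.exp s) ^ k = z ^ k * Real.exp (s * k) := by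
    intro z s k
    rw [mul_pow, ← Real.exp_nat_mul, mul_comm (k : ℝ) s]
  rw [pow1, pow1, pow1, pow1]
  have one_le : ∀ z : ℝ, 0 ≤ z → 1 ≤ Real.exp z := fun z hz => Real.one_le_exp hz
  have hxy : 0 ≤ (T.h Z p q : ℝ) * (x ^ p * y ^ q) := by positivity
  set A := (T.h Z p q : ℝ) * (x ^ p * y ^ q) with hA
  have e1 : Real.exp (-(θ * (1 + δ) / 2 * d)) *
      ((T.h Z p q : ℝ) * (x ^ p * Real.exp (θ * p) * y ^ q)) =
      A * Real.exp (θ / 2 * (2 * p - d - δ * d)) := by
    rw [hA, show θ / 2 * (2 * (p : ℝ) - d - δ * d) = -(θ * (1 + δ) / 2 * d) + θ * p by ring,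
      Real.exp_add]
    ring
  have e2 : Real.exp (θ * (1 - δ) / 2 * d) *
      ((T.h Z p q : ℝ) * (x ^ p * Real.exp (-θ * p) * y ^ q)) =
      A * Real.exp (θ / 2 * (d - 2 * p - δ * d)) := by
    rw [hA, show θ / 2 * (d - 2 * (p : ℝ) - δ * d) = θ * (1 - δ) / 2 * d + -θ * p by ring,
      Real.exp_add]
    ring
  have e3 : Real.exp (-(θ * (1 + δ) / 2 * d)) *
      ((T.h Z p q : ℝ) * (x ^ p * (y ^ q * Real.exp (θ * q)))) =
      A * Real.exp (θ / 2 * (2 * q - d - δ * d)) := by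
    rw [hA, show θ / 2 * (2 * (q : ℝ) - d - δ * d) = -(θ * (1 + δ) / 2 * d) + θ * q by ring,
      Real.exp_add]
    ring
  have e4 : Real.exp (θ * (1 - δ) / 2 * d) *
      ((T.h Z p q : ℝ) * (x ^ p * (y ^ q * Real.exp (-θ * q)))) =
      A * Real.exp (θ / 2 * (d - 2 * q - δ * d)) := by
    rw [hA, show θ / 2 * (d - 2 * (q : ℝ) - δ * d) = θ * (1 - δ) / 2 * d + -θ * q by ring,
      Real.exp_add]
    ring
  rw [e1, e2, e3, e4]
  have t1 : 0 ≤ A * Real.exp (θ / 2 * (2 * p - d - δ * d)) := by positivity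
  have t2 : 0 ≤ A * Real.exp (θ / 2 * (d - 2 * p - δ * d)) := by positivity
  have t3 : 0 ≤ A * Real.exp (θ / 2 * (2 * q - d - δ * d)) := by positivity
  have t4 : 0 ≤ A * Real.exp (θ / 2 * (d - 2 * q - δ * d)) := by positivity
  have big : ∀ z : ℝ, 0 ≤ z → A ≤ A * Real.exp (θ / 2 * z) := fun z hz =>
    le_mul_of_one_le_right hxy (one_le _ (by positivity))
  split_ifs with hg
  · linarith
  · rw [not_and_or, not_le, not_le, lt_abs, lt_abs] at hg
    rcases hg with (hg | hg) | (hg | hg)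
    · have := big (2 * p - d - δ * d) (by linarith)
      linarith
    · have := big (d - 2 * p - δ * d) (by linarith)
      linarith
    · have := big (2 * q - d - δ * d) (by linarith)
      linarith
    · have := big (d - 2 * q - δ * d) (by linarith)
      linarith

/-- the growth argument -/
theorem grow {f g B ρ : ℝ} (hf : 0 < f) (hg : 0 ≤ g) (hB : 0 ≤ B) (hρ0 : 0 ≤ ρ) (hρ : ρ < 1)
    {K : ℝ}
    (h : ∀ N : ℕ, f ^ (N + 1) ≤ K * (B * g) ^ (N + 1) + 4 * (ρ * f) ^ (N + 1)) : f ≤ B * g := by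
  by_contra hlt
  push Not at hlt
  set r := B * g / f with hr
  have hr0 : 0 ≤ r := by positivity
  have hr1 : r < 1 := by rw [hr, div_lt_one hf]; exact hlt
  have h1 : ∀ N : ℕ, 1 ≤ K * r ^ (N + 1) + 4 * ρ ^ (N + 1) := by
    intro N
    have h2 := h N
    have hfN : 0 < f ^ (N + 1) := by positivity
    have h3 : K * (B * g) ^ (N + 1) + 4 * (ρ * f) ^ (N + 1) =
        (K * r ^ (N + 1) + 4 * ρ ^ (N + 1)) * f ^ (N + 1) := by
      have h4 : B * g = r * f := by
        rw [hr]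
        field_simp
      rw [h4, mul_pow, mul_pow]
      ring
    rw [h3] at h2
    by_contra hcon
    push Not at hcon
    have := mul_lt_mul_of_pos_right hcon hfN
    linarith
  have h2 : Filter.Tendsto (fun N : ℕ => K * r ^ (N + 1) + 4 * ρ ^ (N + 1)) Filter.atTop
      (nhds (K * 0 + 4 * 0)) := by
    have a1 := (tendsto_pow_atTop_nhds_zero_of_lt_one hr0 hr1).comp (Filter.tendsto_add_atTop_nat 1)
    have a2 := (tendsto_pow_atTop_nhds_zero_of_lt_one hρ0 hρ).comp (Filter.tendsto_add_atTop_nat 1)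
    exact (a1.const_mul K).add (a2.const_mul 4)
  have h3 := ge_of_tendsto' h2 h1
  norm_num at h3

end Pool.Agent.V8H71.HN
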