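import Pool.Agent.V8H71.HN.Defs
import Pool.Agent.V8H71.HN.Ext

/-!
# Hodge polynomials
-/

set_option autoImplicit false

open Finset Polynomial

noncomputable section

namespace Pool.Agent.V8H71.HN

variable {T : VarClass}

/-- the Hodge polynomial -/
def poly (T : VarClass) (R : Type) [CommRing R] (Z : T.V) : Polynomial (Polynomial R) :=
  ∑ p ∈ range (T.dim Z + 1), C (∑ q ∈ range (T.dim Z + 1), C (T.h Z p q : R) * X ^ q) * X ^ p

theorem coeff_poly (hT : T.Standard) (R : Type) [CommRing R] (Z : T.V) (p q : ℕ) :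
    ((poly T R Z).coeff p).coeff q = (T.h Z p q : R) := by
  unfold poly
  rw [finsetSum_coeff]
  simp only [coeff_C_mul_X_pow]
  rw [Finset.sum_ite_eq]
  split_ifs with h
  · rw [finsetSum_coeff]
    simp only [coeff_C_mul_X_pow]
    rw [Finset.sum_ite_eq]
    split_ifs with h'
    · rfl
    · rw [mem_range] at h'
      rw [hT.vanish Z p q (Or.inr (by omega)), Nat.cast_zero]
  · rw [mem_range] at h
    rw [hT.vanish Z p q (Or.inl (by omega)), Nat.cast_zero, coeff_zero]

theorem poly_prod (hT : T.Standard) (R : Type) [CommRing R] (Z W : T.V) :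
    poly T R (T.prod Z W) = poly T R Z * poly T R W := by
  ext p q
  rw [coeff_poly hT, coeff_mul, finsetSum_coeff, hT.kunneth]
  push_cast
  refine Finset.sum_congr rfl fun i _ => ?_
  rw [coeff_mul]
  refine Finset.sum_congr rfl fun j _ => ?_
  rw [coeff_poly hT, coeff_poly hT]

/-- the group generated by the Hodge polynomials of the varieties of dimension `k` -/
def Rk (T : VarClass) (k : ℕ) : Submodule ℤ (Polynomial (Polynomial ℤ)) :=
  Submodule.span ℤ {P | ∃ Z, T.dim Z = k ∧ P = poly T ℤ Z}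

theorem poly_mem {Z : T.V} {k : ℕ} (h : T.dim Z = k) : poly T ℤ Z ∈ Rk T k :=
  Submodule.subset_span ⟨Z, h, rfl⟩

theorem mul_mem' (hT : T.Standard) {k l : ℕ} {P Q : Polynomial (Polynomial ℤ)}
    (hP : P ∈ Rk T k) (hQ : Q ∈ Rk T l) : P * Q ∈ Rk T (k + l) := by
  induction hP using Submodule.span_induction with
  | mem P hP =>
    obtain ⟨Z, hZ, rfl⟩ := hP
    induction hQ using Submodule.span_induction with
    | mem Q hQ =>
      obtain ⟨W, hW, rfl⟩ := hQ
      rw [← poly_prod hT]
      exact poly_mem (by rw [hT.dim_prod, hZ, hW])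
    | zero => rw [mul_zero]; exact zero_mem _
    | add P Q _ _ h1 h2 => rw [mul_add]; exact add_mem h1 h2
    | smul c P _ h1 => rw [mul_smul_comm]; exact Submodule.smul_mem _ c h1
  | zero => rw [zero_mul]; exact zero_mem _
  | add P Q _ _ h1 h2 => rw [add_mul]; exact add_mem h1 h2
  | smul c P _ h1 => rw [smul_mul_assoc]; exact Submodule.smul_mem _ c h1

section basic

variable (hT : T.Standard) (hB : T.HasBasic)

include hT hB in
theorem one_mem' : (1 : Polynomial (Polynomial ℤ)) ∈ Rk T 0 := by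
  obtain ⟨Z, hZ⟩ := hB.point
  have h := poly_mem hZ
  unfold poly at h
  rw [hZ] at h
  simpa [hT.conn] using h

/-- `1 + xy` -/
def eA : Polynomial (Polynomial ℤ) := 1 + X * C X

/-- `x + y` -/
def eU : Polynomial (Polynomial ℤ) := X + C X

/-- `xy` -/
def eW : Polynomial (Polynomial ℤ) := X * C X

include hT hB in
theorem eA_mem : eA ∈ Rk T 1 := by
  obtain ⟨Z, hZ, h01⟩ := hB.line
  have h10 : T.h Z 1 0 = 0 := by rw [hT.hodge, h01]
  have h11 : T.h Z 1 1 = 1 := by
    rw [hT.serre Z 1 1 (by rw [hZ]) (by rw [hZ]), hZ]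
    exact hT.conn Z
  have h := poly_mem hZ
  unfold poly at h
  rw [hZ] at h
  simp only [Finset.sum_range_succ, Finset.sum_range_zero, hT.conn, h01, h10, h11] at h
  convert h using 1
  unfold eA
  simp only [Nat.cast_one, Nat.cast_zero, C_1, C_0, one_mul, zero_mul, pow_zero, pow_one,
    zero_add, add_zero, map_one, map_zero, mul_one]
  ring

include hT hB in
theorem eU_mem : eU ∈ Rk T 1 := by
  obtain ⟨Z, hZ, h01⟩ := hB.elliptic
  have h10 : T.h Z 1 0 = 1 := by rw [hT.hodge, h01]
  have h11 : T.h Z 1 1 = 1 := by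
    rw [hT.serre Z 1 1 (by rw [hZ]) (by rw [hZ]), hZ]
    exact hT.conn Z
  have h := poly_mem hZ
  unfold poly at h
  rw [hZ] at h
  simp only [Finset.sum_range_succ, Finset.sum_range_zero, hT.conn, h01, h10, h11] at h
  have h2 := sub_mem h (eA_mem hT hB)
  convert h2 using 1
  unfold eA eU
  simp only [Nat.cast_one, C_1, one_mul, pow_zero, pow_one, zero_add, map_one, map_add, mul_one]
  ring

include hT hB in
theorem eW_mem : eW ∈ Rk T 2 := by
  obtain ⟨Z, hZ, h01, h02, h11⟩ := hB.plane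
  have h10 : T.h Z 1 0 = 0 := by rw [hT.hodge, h01]
  have h20 : T.h Z 2 0 = 0 := by rw [hT.hodge, h02]
  have h12 : T.h Z 1 2 = 0 := by
    rw [hT.serre Z 1 2 (by rw [hZ]; norm_num) (by rw [hZ]), hZ]
    exact h10
  have h21 : T.h Z 2 1 = 0 := by rw [hT.hodge, h12]
  have h22 : T.h Z 2 2 = 1 := by
    rw [hT.serre Z 2 2 (by rw [hZ]) (by rw [hZ]), hZ]
    exact hT.conn Z
  have h := poly_mem hZ
  unfold poly at h
  rw [hZ] at h
  simp only [Finset.sum_range_succ, Finset.sum_range_zero, hT.conn, h01, h10, h11, h20, h02, h12,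
    h21, h22] at h
  have h2 := sub_mem (mul_mem' hT (eA_mem hT hB) (eA_mem hT hB)) h
  convert h2 using 1
  unfold eA eW
  simp only [Nat.cast_one, Nat.cast_zero, C_1, C_0, one_mul, zero_mul, pow_zero, pow_one,
    zero_add, add_zero, map_one, map_zero, map_add, mul_one, map_pow]
  ring

include hT hB in
theorem pow_mem' {k : ℕ} {P : Polynomial (Polynomial ℤ)} (hP : P ∈ Rk T k) (j : ℕ) :
    P ^ j ∈ Rk T (j * k) := by
  induction j with
  | zero =>
    rw [pow_zero, zero_mul]
    exact one_mem' hT hB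
  | succ j ih =>
    rw [pow_succ, add_mul, one_mul]
    exact mul_mem' hT ih hP

include hT hB in
theorem s_mem : ∀ r : ℕ, (X ^ r + C (X ^ r) : Polynomial (Polynomial ℤ)) ∈ Rk T r := by
  have key : ∀ r : ℕ, (X ^ r + C (X ^ r) : Polynomial (Polynomial ℤ)) ∈ Rk T r ∧
      (X ^ (r + 1) + C (X ^ (r + 1)) : Polynomial (Polynomial ℤ)) ∈ Rk T (r + 1) := by
    intro r
    induction r with
    | zero =>
      constructor
      · have h := add_mem (one_mem' hT hB) (one_mem' hT hB)
        simpa using h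
      · have h := eU_mem hT hB
        unfold eU at h
        simpa using h
    | succ r ih =>
      refine ⟨ih.2, ?_⟩
      have h1 := mul_mem' hT (eU_mem hT hB) ih.2
      have h2 := mul_mem' hT (eW_mem hT hB) ih.1
      rw [show 1 + (r + 1) = r + 1 + 1 by ring] at h1
      rw [show 2 + r = r + 1 + 1 by ring] at h2
      have h3 := sub_mem h1 h2
      convert h3 using 1
      unfold eU eW
      simp only [map_pow]
      ring
  exact fun r => (key r).1

include hT hB in
theorem t_mem : ∀ e : ℕ, (1 + X ^ e * C (X ^ e) : Polynomial (Polynomial ℤ)) ∈ Rk T e := by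
  have key : ∀ e : ℕ, (1 + X ^ e * C (X ^ e) : Polynomial (Polynomial ℤ)) ∈ Rk T e ∧
      (1 + X ^ (e + 1) * C (X ^ (e + 1)) : Polynomial (Polynomial ℤ)) ∈ Rk T (e + 1) := by
    intro e
    induction e with
    | zero =>
      constructor
      · have h := add_mem (one_mem' hT hB) (one_mem' hT hB)
        simpa using h
      · have h := eA_mem hT hB
        unfold eA at h
        simpa using h
    | succ e ih =>
      refine ⟨ih.2, ?_⟩
      have h1 := mul_mem' hT (eA_mem hT hB) ih.2
      have h2 := mul_mem' hT (eW_mem hT hB) ih.1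
      rw [show 1 + (e + 1) = e + 1 + 1 by ring] at h1
      rw [show 2 + e = e + 1 + 1 by ring] at h2
      have h3 := sub_mem h1 h2
      convert h3 using 1
      unfold eA eW
      simp only [map_pow]
      ring
  exact fun e => (key e).1

/-- the symmetrised monomials -/
def mon (k p q : ℕ) : Polynomial (Polynomial ℤ) :=
  X ^ p * C (X ^ q) + X ^ q * C (X ^ p) + X ^ (k - p) * C (X ^ (k - q)) +
    X ^ (k - q) * C (X ^ (k - p))

include hT hB in
theorem mon_mem {k p q : ℕ} (hp : p ≤ k) (hq : q ≤ k) : mon k p q ∈ Rk T k := by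
  have base : ∀ p q : ℕ, q ≤ p → p + q ≤ k → mon k p q ∈ Rk T k := by
    intro p q h1 h2
    obtain ⟨r, rfl⟩ := Nat.exists_eq_add_of_le h1
    obtain ⟨e, he⟩ := Nat.exists_eq_add_of_le h2
    have h3 := mul_mem' hT (mul_mem' hT (pow_mem' hT hB (eW_mem hT hB) q) (s_mem hT hB r))
      (t_mem hT hB e)
    have e1 : q * 2 + r + e = k := by omega
    rw [e1] at h3
    convert h3 using 1
    unfold mon eW
    have e2 : k - (q + r) = q + e := by omega
    have e3 : k - q = q + r + e := by omega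
    rw [e2, e3]
    simp only [map_pow]
    ring
  have sw : ∀ p q : ℕ, mon k p q = mon k q p := fun p q => by
    unfold mon
    ring
  have half : ∀ p q : ℕ, p + q ≤ k → mon k p q ∈ Rk T k := by
    intro p q h
    rcases le_total q p with h1 | h1
    · exact base p q h1 h
    · rw [sw]
      exact base q p h1 (by omega)
  rcases le_total (p + q) k with h | h
  · exact half p q h
  · have e : mon k p q = mon k (k - p) (k - q) := by
      unfold mon
      rw [Nat.sub_sub_self hp, Nat.sub_sub_self hq]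
      ring
    rw [e]
    exact half _ _ (by omega)

end basic

/-! ### differences -/

/-- the differences of the Hodge numbers, extended by zero -/
def dif (D : Polynomial (Polynomial ℤ)) (P Q : ℤ) : ℤ :=
  if 0 ≤ P ∧ 0 ≤ Q then (D.coeff P.toNat).coeff Q.toNat else 0

theorem coeff_shift (D : Polynomial (Polynomial ℤ)) (p q a b : ℕ) :
    ((D * (X ^ p * C (X ^ q))).coeff a).coeff b = dif D ((a : ℤ) - p) ((b : ℤ) - q) := by
  have e : D * (X ^ p * C (X ^ q)) = D * C (X ^ q) * X ^ p := by ring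
  rw [e, coeff_mul_X_pow']
  unfold dif
  by_cases h1 : p ≤ a
  · rw [if_pos h1, coeff_mul_C, coeff_mul_X_pow']
    by_cases h2 : q ≤ b
    · rw [if_pos h2, if_pos ⟨by omega, by omega⟩, show a - p = ((a : ℤ) - p).toNat by omega,
        show b - q = ((b : ℤ) - q).toNat by omega]
    · rw [if_neg h2, if_neg fun h => h2 (by omega)]
  · rw [if_neg h1, coeff_zero, if_neg fun h => h1 (by omega)]

/-- **The main step.** -/
theorem one_number (hT : T.Standard) (hB : T.HasBasic) {m n N a b : ℕ}
    (hm : (Odd m ∨ m = 0) ∨ (a ≠ b ∧ a + b ≠ N))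
    (ha : n ≤ a) (ha' : a + n ≤ N) (hb : n ≤ b) (hb' : b + n ≤ N) (h : T.OneNumberMod m N a b) :
    T.InvarianceMod m n := by
  intro Z W hZW hn
  have hnW : T.dim W = n := by rw [← hT.de_dim Z W hZW, hn]
  set D : Polynomial (Polynomial ℤ) := poly T ℤ Z - poly T ℤ W with hD
  have hDc : ∀ p q : ℕ, (D.coeff p).coeff q = (T.h Z p q : ℤ) - T.h W p q := by
    intro p q
    rw [hD, coeff_sub, coeff_sub, coeff_poly hT, coeff_poly hT]
  -- the functional
  have fn : ∀ Q ∈ Rk T (N - n), (m : ℤ) ∣ ((D * Q).coeff a).coeff b := by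
    intro Q hQ
    induction hQ using Submodule.span_induction with
    | mem Q hQ =>
      obtain ⟨V, hV, rfl⟩ := hQ
      rw [hD, sub_mul, ← poly_prod hT, ← poly_prod hT, coeff_sub, coeff_sub, coeff_poly hT,
        coeff_poly hT]
      have h1 := h (T.prod Z V) (T.prod W V) (hT.de_prod _ _ _ _ hZW (hB.refl V))
        (by rw [hT.dim_prod, hn, hV]; omega)
      exact Nat.modEq_iff_dvd.mp h1.symm
    | zero => rw [mul_zero, coeff_zero, coeff_zero]; exact dvd_zero _
    | add P Q _ _ h1 h2 => rw [mul_add, coeff_add, coeff_add]; exact dvd_add h1 h2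
    | smul c P _ h1 =>
      rw [mul_smul_comm, coeff_smul, coeff_smul, smul_eq_mul]
      exact h1.mul_left c
  have h0 : ∀ P Q : ℤ, P < 0 ∨ Q < 0 ∨ (n : ℤ) < P ∨ (n : ℤ) < Q → dif D P Q = 0 := by
    intro P Q hPQ
    unfold dif
    split_ifs with h1
    · rw [hDc, hT.vanish Z _ _ (by rw [hn]; omega), hT.vanish W _ _ (by rw [hnW]; omega)]
      simp
    · rfl
  have hs : ∀ P Q : ℤ, dif D P Q = dif D Q P := by
    intro P Q
    unfold dif
    by_cases h1 : 0 ≤ P ∧ 0 ≤ Q
    · rw [if_pos h1, if_pos h1.symm, hDc, hDc, hT.hodge Z, hT.hodge W]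
    · rw [if_neg h1, if_neg fun h => h1 h.symm]
  have hd : ∀ P Q : ℤ, dif D P Q = dif D (n - P) (n - Q) := by
    intro P Q
    by_cases h1 : 0 ≤ P ∧ 0 ≤ Q ∧ P ≤ n ∧ Q ≤ n
    · obtain ⟨p1, p2, p3, p4⟩ := h1
      unfold dif
      rw [if_pos ⟨p1, p2⟩, if_pos ⟨by omega, by omega⟩, hDc, hDc,
        hT.serre Z _ _ (by rw [hn]; omega) (by rw [hn]; omega),
        hT.serre W _ _ (by rw [hnW]; omega) (by rw [hnW]; omega), hn, hnW]
      have e1 : n - P.toNat = ((n : ℤ) - P).toNat := by omega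
      have e2 : n - Q.toNat = ((n : ℤ) - Q).toNat := by omega
      rw [e1, e2]
    · rw [h0 P Q (by omega), h0 _ _ (by omega)]
  have rel : Rel (m : ℤ) n (dif D) ((a : ℤ) - b) ((N : ℤ) - a - b) := by
    intro P Q q1 q2 q3 q4
    have h1 := fn _ (mon_mem hT hB (k := N - n) (p := a - P.toNat) (q := b - Q.toNat) (by omega)
      (by omega))
    unfold mon at h1
    rw [mul_add, mul_add, mul_add, coeff_add, coeff_add, coeff_add, coeff_add, coeff_add,
      coeff_add, coeff_shift, coeff_shift, coeff_shift, coeff_shift] at h1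
    have e1 : (a : ℤ) - ((a - P.toNat : ℕ) : ℤ) = P := by omega
    have e2 : (b : ℤ) - ((b - Q.toNat : ℕ) : ℤ) = Q := by omega
    have e3 : (a : ℤ) - ((b - Q.toNat : ℕ) : ℤ) = Q + (a - b) := by omega
    have e4 : (b : ℤ) - ((a - P.toNat : ℕ) : ℤ) = P - (a - b) := by omega
    have e5 : (a : ℤ) - ((N - n - (a - P.toNat) : ℕ) : ℤ) = n - (P + (N - a - b) - (a - b)) := by
      omega
    have e6 : (b : ℤ) - ((N - n - (b - Q.toNat) : ℕ) : ℤ) = n - (Q + (N - a - b) + (a - b)) := by
      omega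
    have e7 : (a : ℤ) - ((N - n - (b - Q.toNat) : ℕ) : ℤ) = n - (Q + (N - a - b)) := by omega
    have e8 : (b : ℤ) - ((N - n - (a - P.toNat) : ℕ) : ℤ) = n - (P + (N - a - b)) := by omega
    rw [e1, e2, e3, e4, e5, e6, e7, e8, ← hd, ← hd, hs (Q + _) (P - _),
      hs (Q + (N - a - b)) (P + (N - a - b))] at h1
    convert h1 using 1
    ring
  have hm' : (Odd (m : ℤ) ∨ (m : ℤ) = 0) ∨
      ((a : ℤ) - b ≠ 0 ∧ (N : ℤ) - a - b ≠ 0) := by
    rcases hm with (hm | rfl) | hm
    · exact Or.inl (Or.inl (by exact_mod_cast hm))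
    · exact Or.inl (Or.inr rfl)
    · exact Or.inr ⟨by omega, by omega⟩
  intro p q
  have h1 := ext_all hm' h0 hs hd rel p q
  unfold dif at h1
  rw [if_pos ⟨Int.natCast_nonneg p, Int.natCast_nonneg q⟩, Int.toNat_natCast, Int.toNat_natCast,
    hDc] at h1
  exact (Nat.modEq_iff_dvd.mpr h1).symm

end Pool.Agent.V8H71.HN
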