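import Pool.Agent.V8H71.HN.Mid

/-!
# Rough comparison near the middle implies invariance
-/

set_option autoImplicit false

open Finset Polynomial

noncomputable section

namespace Pool.Agent.V8H71.HN

variable {T : VarClass}

theorem F_cosh (hT : T.Standard) (Z : T.V) (θ : ℝ) : F T Z (Real.exp θ) 1 ≤
    F T Z 1 1 * (Real.exp (θ * T.dim Z / 2) * Real.cosh (θ * T.dim Z / 2)) := by
  set d := T.dim Z with hd
  have e1 : F T Z (Real.exp θ) 1 = ∑ p ∈ range (d + 1), ∑ q ∈ range (d + 1),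
      (T.h Z p q : ℝ) * Real.exp (θ * p) := by
    rw [F_eq]
    refine Finset.sum_congr rfl fun p _ => Finset.sum_congr rfl fun q _ => ?_
    rw [one_pow, mul_one, ← Real.exp_nat_mul, mul_comm (p : ℝ)]
  have e2 : F T Z (Real.exp θ) 1 = ∑ p ∈ range (d + 1), ∑ q ∈ range (d + 1),
      (T.h Z p q : ℝ) * Real.exp (θ * ((d : ℝ) - p)) := by
    rw [e1, ← Finset.sum_range_reflect]
    refine Finset.sum_congr rfl fun p hp => ?_
    rw [← Finset.sum_range_reflect]
    refine Finset.sum_congr rfl fun q hq => ?_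
    rw [mem_range] at hp hq
    have h1 := hT.serre Z p q (by omega) (by omega)
    rw [← hd] at h1
    have e3 : d + 1 - 1 - p = d - p := by omega
    have e4 : d + 1 - 1 - q = d - q := by omega
    rw [e3, e4, ← h1, Nat.cast_sub (by omega)]
  have e3 : 2 * F T Z (Real.exp θ) 1 = ∑ p ∈ range (d + 1), ∑ q ∈ range (d + 1),
      (T.h Z p q : ℝ) * (Real.exp (θ * p) + Real.exp (θ * ((d : ℝ) - p))) := by
    rw [two_mul]
    nth_rewrite 1 [e1]
    rw [e2, ← Finset.sum_add_distrib]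
    refine Finset.sum_congr rfl fun p _ => ?_
    rw [← Finset.sum_add_distrib]
    refine Finset.sum_congr rfl fun q _ => ?_
    ring
  have e4 : 2 * F T Z (Real.exp θ) 1 ≤ ∑ p ∈ range (d + 1), ∑ q ∈ range (d + 1),
      (T.h Z p q : ℝ) * (2 * (Real.exp (θ * d / 2) * Real.cosh (θ * d / 2))) := by
    rw [e3]
    refine Finset.sum_le_sum fun p hp => Finset.sum_le_sum fun q _ => ?_
    rw [mem_range] at hp
    refine mul_le_mul_of_nonneg_left ?_ (Nat.cast_nonneg _)
    have h1 : Real.exp (θ * p) + Real.exp (θ * ((d : ℝ) - p)) =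
        2 * (Real.exp (θ * d / 2) * Real.cosh (θ * (p - d / 2))) := by
      rw [Real.cosh_eq, show θ * (p : ℝ) = θ * d / 2 + θ * (p - d / 2) by ring,
        show θ * ((d : ℝ) - p) = θ * d / 2 + -(θ * (p - d / 2)) by ring, Real.exp_add,
        Real.exp_add]
      ring
    rw [h1]
    refine mul_le_mul_of_nonneg_left ?_ (by norm_num)
    refine mul_le_mul_of_nonneg_left ?_ (Real.exp_pos _).le
    rw [Real.cosh_le_cosh, mul_div_assoc, abs_mul, abs_mul]
    refine mul_le_mul_of_nonneg_left ?_ (abs_nonneg _)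
    have hp' : (p : ℝ) ≤ d := by exact_mod_cast Nat.lt_succ_iff.mp hp
    have hp0 : (0 : ℝ) ≤ p := Nat.cast_nonneg _
    have hd0 : (0 : ℝ) ≤ d := Nat.cast_nonneg _
    rw [abs_of_nonneg (show (0 : ℝ) ≤ (d : ℝ) / 2 by positivity), abs_le]
    constructor <;> linarith
  have e5 : ∑ p ∈ range (d + 1), ∑ q ∈ range (d + 1),
      (T.h Z p q : ℝ) * (2 * (Real.exp (θ * d / 2) * Real.cosh (θ * d / 2))) =
      2 * (F T Z 1 1 * (Real.exp (θ * d / 2) * Real.cosh (θ * d / 2))) := by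
    rw [F_eq]
    simp only [one_pow, mul_one, Finset.sum_mul, Finset.mul_sum]
    refine Finset.sum_congr rfl fun p _ => Finset.sum_congr rfl fun q _ => ?_
    ring
  rw [e5] at e4
  linarith

theorem small (hT : T.Standard) (Z : T.V) (hd : 0 < T.dim Z) {δ θ : ℝ} (hδ : 0 < δ)
    (hθ : θ = 2 * δ / T.dim Z) :
    Real.exp (-(θ * (1 + δ) / 2 * T.dim Z)) * F T Z (Real.exp θ) 1 < F T Z 1 1 ∧
      Real.exp (θ * (1 - δ) / 2 * T.dim Z) * F T Z (Real.exp (-θ)) 1 < F T Z 1 1 := by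
  have hd' : (0 : ℝ) < T.dim Z := by exact_mod_cast hd
  have hF : 0 < F T Z 1 1 := lt_of_lt_of_le one_pos (F_ge hT Z zero_le_one zero_le_one)
  have hc : Real.exp (-δ ^ 2) * Real.cosh δ < 1 := by
    have h1 := Real.cosh_le_exp_half_sq δ
    have h2 : Real.exp (-δ ^ 2) * Real.cosh δ ≤ Real.exp (-δ ^ 2) * Real.exp (δ ^ 2 / 2) :=
      mul_le_mul_of_nonneg_left h1 (Real.exp_pos _).le
    rw [← Real.exp_add] at h2
    refine h2.trans_lt ?_
    rw [Real.exp_lt_one_iff]
    nlinarith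
  constructor
  · have h1 := F_cosh hT Z θ
    have e1 : θ * T.dim Z / 2 = δ := by rw [hθ]; field_simp
    rw [e1] at h1
    have e2 : -(θ * (1 + δ) / 2 * T.dim Z) = -δ ^ 2 + -δ := by rw [hθ]; field_simp; ring
    rw [e2, Real.exp_add]
    calc Real.exp (-δ ^ 2) * Real.exp (-δ) * F T Z (Real.exp θ) 1
        ≤ Real.exp (-δ ^ 2) * Real.exp (-δ) * (F T Z 1 1 * (Real.exp δ * Real.cosh δ)) :=
          mul_le_mul_of_nonneg_left h1 (by positivity)
      _ = (Real.exp (-δ ^ 2) * Real.cosh δ) * F T Z 1 1 * (Real.exp (-δ) * Real.exp δ) := by ring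
      _ = (Real.exp (-δ ^ 2) * Real.cosh δ) * F T Z 1 1 := by
          rw [← Real.exp_add, neg_add_cancel, Real.exp_zero, mul_one]
      _ < 1 * F T Z 1 1 := mul_lt_mul_of_pos_right hc hF
      _ = F T Z 1 1 := one_mul _
  · have h1 := F_cosh hT Z (-θ)
    have e1 : -θ * T.dim Z / 2 = -δ := by rw [hθ]; field_simp
    rw [e1, Real.cosh_neg] at h1
    have e2 : θ * (1 - δ) / 2 * T.dim Z = -δ ^ 2 + δ := by rw [hθ]; field_simp; ring
    rw [e2, Real.exp_add]
    calc Real.exp (-δ ^ 2) * Real.exp δ * F T Z (Real.exp (-θ)) 1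
        ≤ Real.exp (-δ ^ 2) * Real.exp δ * (F T Z 1 1 * (Real.exp (-δ) * Real.cosh δ)) :=
          mul_le_mul_of_nonneg_left h1 (by positivity)
      _ = (Real.exp (-δ ^ 2) * Real.cosh δ) * F T Z 1 1 * (Real.exp δ * Real.exp (-δ)) := by ring
      _ = (Real.exp (-δ ^ 2) * Real.cosh δ) * F T Z 1 1 := by
          rw [← Real.exp_add, add_neg_cancel, Real.exp_zero, mul_one]
      _ < 1 * F T Z 1 1 := mul_lt_mul_of_pos_right hc hF
      _ = F T Z 1 1 := one_mul _

/-- the conditions on `x`, `y` -/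
def Near (T : VarClass) (Z : T.V) (θ δ x y : ℝ) : Prop :=
  Real.exp (-(θ * (1 + δ) / 2 * T.dim Z)) * F T Z (x * Real.exp θ) y < F T Z x y ∧
  Real.exp (θ * (1 - δ) / 2 * T.dim Z) * F T Z (x * Real.exp (-θ)) y < F T Z x y ∧
  Real.exp (-(θ * (1 + δ) / 2 * T.dim Z)) * F T Z x (y * Real.exp θ) < F T Z x y ∧
  Real.exp (θ * (1 - δ) / 2 * T.dim Z) * F T Z x (y * Real.exp (-θ)) < F T Z x y

theorem near_open (Z : T.V) (θ δ : ℝ) : IsOpen {z : ℝ × ℝ | Near T Z θ δ z.1 z.2} := by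
  have hc := F_cont (T := T) Z
  have c1 : Continuous fun z : ℝ × ℝ => F T Z (z.1 * Real.exp θ) z.2 :=
    hc.comp (by fun_prop : Continuous fun z : ℝ × ℝ => (z.1 * Real.exp θ, z.2))
  have c2 : Continuous fun z : ℝ × ℝ => F T Z (z.1 * Real.exp (-θ)) z.2 :=
    hc.comp (by fun_prop : Continuous fun z : ℝ × ℝ => (z.1 * Real.exp (-θ), z.2))
  have c3 : Continuous fun z : ℝ × ℝ => F T Z z.1 (z.2 * Real.exp θ) :=
    hc.comp (by fun_prop : Continuous fun z : ℝ × ℝ => (z.1, z.2 * Real.exp θ))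
  have c4 : Continuous fun z : ℝ × ℝ => F T Z z.1 (z.2 * Real.exp (-θ)) :=
    hc.comp (by fun_prop : Continuous fun z : ℝ × ℝ => (z.1, z.2 * Real.exp (-θ)))
  exact (isOpen_lt (continuous_const.mul c1) hc).inter
    ((isOpen_lt (continuous_const.mul c2) hc).inter
      ((isOpen_lt (continuous_const.mul c3) hc).inter (isOpen_lt (continuous_const.mul c4) hc)))

theorem near_one (hT : T.Standard) (Z : T.V) (hd : 0 < T.dim Z) {δ θ : ℝ} (hδ : 0 < δ)
    (hθ : θ = 2 * δ / T.dim Z) : Near T Z θ δ 1 1 := by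
  obtain ⟨h1, h2⟩ := small hT Z hd hδ hθ
  refine ⟨?_, ?_, ?_, ?_⟩
  · rwa [one_mul]
  · rwa [one_mul]
  · rwa [one_mul, F_swap hT]
  · rwa [one_mul, F_swap hT]

theorem le_near (hT : T.Standard) {δ : ℝ} (hR : T.RoughMiddle δ) {Z W : T.V} (h : T.DE Z W)
    {x y θ : ℝ} (hx : 0 < x) (hy : 0 < y) (hθ : 0 < θ) (hN : Near T Z θ δ x y) :
    F T Z x y ≤ F T W x y := by
  obtain ⟨c1, c2, c3, c4⟩ := hN
  have hf : 0 < F T Z x y := lt_of_lt_of_le one_pos (F_ge hT Z hx.le hy.le)
  have hg : 0 < F T W x y := lt_of_lt_of_le one_pos (F_ge hT W hx.le hy.le)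
  have hB : 1 ≤ F T Z 1 1 := F_ge hT Z zero_le_one zero_le_one
  set f := F T Z x y with hfd
  set g := F T W x y with hgd
  set B := F T Z 1 1 with hBd
  set t1 := Real.exp (-(θ * (1 + δ) / 2 * T.dim Z)) * F T Z (x * Real.exp θ) y with ht1
  set t2 := Real.exp (θ * (1 - δ) / 2 * T.dim Z) * F T Z (x * Real.exp (-θ)) y with ht2
  set t3 := Real.exp (-(θ * (1 + δ) / 2 * T.dim Z)) * F T Z x (y * Real.exp θ) with ht3
  set t4 := Real.exp (θ * (1 - δ) / 2 * T.dim Z) * F T Z x (y * Real.exp (-θ)) with ht4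
  have pos : ∀ u v : ℝ, 0 < u → 0 < v → 0 ≤ F T Z u v := fun u v hu hv =>
    zero_le_one.trans (F_ge hT Z hu.le hv.le)
  have p1 : 0 ≤ t1 := mul_nonneg (Real.exp_pos _).le (pos _ _ (by positivity) hy)
  have p2 : 0 ≤ t2 := mul_nonneg (Real.exp_pos _).le (pos _ _ (by positivity) hy)
  have p3 : 0 ≤ t3 := mul_nonneg (Real.exp_pos _).le (pos _ _ hx (by positivity))
  have p4 : 0 ≤ t4 := mul_nonneg (Real.exp_pos _).le (pos _ _ hx (by positivity))
  set M := max (max t1 t2) (max t3 t4) with hM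
  have hM0 : 0 ≤ M := p1.trans ((le_max_left _ _).trans (le_max_left _ _))
  have hMf : M < f := max_lt (max_lt c1 c2) (max_lt c3 c4)
  set ρ := M / f with hρ
  have hρf : ρ * f = M := by rw [hρ]; field_simp
  have q1 : t1 ≤ ρ * f := by rw [hρf]; exact (le_max_left _ _).trans (le_max_left _ _)
  have q2 : t2 ≤ ρ * f := by rw [hρf]; exact (le_max_right _ _).trans (le_max_left _ _)
  have q3 : t3 ≤ ρ * f := by rw [hρf]; exact (le_max_left _ _).trans (le_max_right _ _)
  have q4 : t4 ≤ ρ * f := by rw [hρf]; exact (le_max_right _ _).trans (le_max_right _ _)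
  have main : ∀ ε : ℝ, 0 < ε → f ≤ B ^ ε * g := by
    intro ε hε
    obtain ⟨K, hK⟩ := hR ε hε
    refine grow (K := |K|) (ρ := ρ) hf hg.le (Real.rpow_nonneg (zero_le_one.trans hB) _)
      (div_nonneg hM0 hf.le) ((div_lt_one hf).mpr hMf) fun N => ?_
    have h1 := tail (δ := δ) (pw T Z N) hx hy hθ
    have hdim : (T.dim (pw T Z N) : ℝ) = ((N + 1 : ℕ) : ℝ) * T.dim Z := by
      rw [dim_pw hT]
      push_cast
      ring
    have hdW : T.dim (pw T W N) = T.dim (pw T Z N) := by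
      rw [dim_pw hT, dim_pw hT, hT.de_dim Z W h]
    have hexp : ∀ s : ℝ, Real.exp (s * T.dim (pw T Z N)) = Real.exp (s * T.dim Z) ^ (N + 1) := by
      intro s
      rw [← Real.exp_nat_mul, hdim]
      congr 1
      ring
    have hexp' : ∀ s : ℝ, Real.exp (-(s * T.dim (pw T Z N))) =
        Real.exp (-(s * T.dim Z)) ^ (N + 1) := by
      intro s
      have := hexp (-s)
      rw [neg_mul, neg_mul] at this
      exact this
    rw [hexp, hexp', F_pw hT, F_pw hT, F_pw hT, F_pw hT, F_pw hT, ← mul_pow, ← mul_pow, ← mul_pow,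
      ← mul_pow, ← ht1, ← ht2, ← ht3, ← ht4, ← hfd] at h1
    have hmid : (∑ p ∈ range (T.dim (pw T Z N) + 1), ∑ q ∈ range (T.dim (pw T Z N) + 1),
        if |2 * (p : ℝ) - T.dim (pw T Z N)| ≤ δ * T.dim (pw T Z N) ∧
            |2 * (q : ℝ) - T.dim (pw T Z N)| ≤ δ * T.dim (pw T Z N) then
          (T.h (pw T Z N) p q : ℝ) * (x ^ p * y ^ q) else 0) ≤
        |K| * (B ^ ε * g) ^ (N + 1) := by
      have htot : (T.total (pw T Z N) : ℝ) ^ ε = (B ^ ε) ^ (N + 1) := by
        rw [← F_total, F_pw hT, ← hBd, ← Real.rpow_natCast, ← Real.rpow_mul (by linarith),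
          ← Real.rpow_natCast, ← Real.rpow_mul (by linarith), mul_comm]
      have hW : |K| * (B ^ ε * g) ^ (N + 1) = ∑ p ∈ range (T.dim (pw T Z N) + 1),
          ∑ q ∈ range (T.dim (pw T Z N) + 1),
            |K| * (B ^ ε) ^ (N + 1) * ((T.h (pw T W N) p q : ℝ) * (x ^ p * y ^ q)) := by
        rw [mul_pow, hgd, ← F_pw hT, F_eq, hdW]
        simp only [Finset.mul_sum]
        refine Finset.sum_congr rfl fun p _ => Finset.sum_congr rfl fun q _ => ?_
        ring
      rw [hW]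
      refine Finset.sum_le_sum fun p _ => Finset.sum_le_sum fun q _ => ?_
      have hB0 : 0 ≤ (B ^ ε) ^ (N + 1) := by positivity
      split_ifs with hg
      · have h2 := hK _ _ (de_pw hT h N) p q hg.1 hg.2
        rw [htot] at h2
        have h3 : (T.h (pw T Z N) p q : ℝ) ≤
            |K| * (B ^ ε) ^ (N + 1) * T.h (pw T W N) p q := by
          refine h2.trans ?_
          refine mul_le_mul_of_nonneg_right ?_ (Nat.cast_nonneg _)
          exact mul_le_mul_of_nonneg_right (le_abs_self K) hB0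
        have h4 := mul_le_mul_of_nonneg_right h3 (show 0 ≤ x ^ p * y ^ q by positivity)
        linarith
      · positivity
    have r1 := pow_le_pow_left₀ p1 q1 (N + 1)
    have r2 := pow_le_pow_left₀ p2 q2 (N + 1)
    have r3 := pow_le_pow_left₀ p3 q3 (N + 1)
    have r4 := pow_le_pow_left₀ p4 q4 (N + 1)
    linarith
  have hlim : Filter.Tendsto (fun ε : ℝ => B ^ ε * g) (nhdsWithin 0 (Set.Ioi 0))
      (nhds (B ^ (0 : ℝ) * g)) := by
    have hc : Continuous fun ε : ℝ => B ^ ε * g :=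
      (Real.continuous_const_rpow (by linarith)).mul continuous_const
    exact (hc.tendsto 0).mono_left nhdsWithin_le_nhds
  rw [Real.rpow_zero, one_mul] at hlim
  refine ge_of_tendsto hlim ?_
  filter_upwards [self_mem_nhdsWithin] with ε hε
  exact main ε hε

/-- polynomials which agree near `(1, 1)` -/
theorem poly_eq_zero {P : Polynomial (Polynomial ℝ)} {η : ℝ} (hη : 0 < η)
    (h : ∀ x y : ℝ, |x - 1| < η → |y - 1| < η → (P.eval (C x)).eval y = 0) : P = 0 := by
  have hinf : (Set.Ioo (1 - η) (1 + η)).Infinite := Set.Ioo_infinite (by linarith)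
  have hI : ∀ x ∈ Set.Ioo (1 - η) (1 + η), |x - 1| < η := by
    intro x hx
    rw [abs_lt]
    constructor <;> [linarith [hx.1]; linarith [hx.2]]
  have h1 : ∀ x ∈ Set.Ioo (1 - η) (1 + η), P.eval (C x) = 0 := by
    intro x hx
    refine Polynomial.eq_zero_of_infinite_isRoot _ (hinf.mono fun y hy => ?_)
    exact h x y (hI x hx) (hI y hy)
  refine Polynomial.eq_zero_of_infinite_isRoot _ ((hinf.image (C_injective.injOn)).mono ?_)
  rintro _ ⟨x, hx, rfl⟩
  exact h1 x hx

theorem invariance_of_rough (hT : T.Standard) {δ : ℝ} (hδ : 0 < δ) (hR : T.RoughMiddle δ) :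
    T.Invariance := by
  intro Z W h p q
  rcases Nat.eq_zero_or_pos (T.dim Z) with hd | hd
  · have hdW : T.dim W = 0 := by rw [← hT.de_dim Z W h, hd]
    by_cases hpq : p = 0 ∧ q = 0
    · rw [hpq.1, hpq.2, hT.conn, hT.conn]
    · rw [hT.vanish Z p q (by omega), hT.vanish W p q (by omega)]
  · have hdW : T.dim W = T.dim Z := (hT.de_dim Z W h).symm
    set θ : ℝ := 2 * δ / T.dim Z with hθ
    have hθ0 : 0 < θ := by
      have : (0 : ℝ) < T.dim Z := by exact_mod_cast hd
      positivity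
    have hθW : θ = 2 * δ / T.dim W := by rw [hdW]
    have o1 := (near_open (T := T) Z θ δ).inter (near_open (T := T) W θ δ)
    have m1 : ((1 : ℝ), (1 : ℝ)) ∈ {z : ℝ × ℝ | Near T Z θ δ z.1 z.2} ∩
        {z : ℝ × ℝ | Near T W θ δ z.1 z.2} :=
      ⟨near_one hT Z hd hδ hθ, near_one hT W (by omega) hδ hθW⟩
    obtain ⟨η, hη, hball⟩ := Metric.isOpen_iff.mp o1 _ m1
    have key : poly T ℝ Z - poly T ℝ W = 0 := by
      refine poly_eq_zero (η := min η (1 / 2)) (lt_min hη (by norm_num)) fun x y hx hy => ?_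
      have hx1 := hx.trans_le (min_le_left _ _)
      have hy1 := hy.trans_le (min_le_left _ _)
      have hx2 := hx.trans_le (min_le_right _ _)
      have hy2 := hy.trans_le (min_le_right _ _)
      rw [abs_lt] at hx2 hy2
      have hmem := hball (show ((x, y) : ℝ × ℝ) ∈ Metric.ball ((1 : ℝ), (1 : ℝ)) η by
        rw [Metric.mem_ball, Prod.dist_eq, max_lt_iff, Real.dist_eq, Real.dist_eq]
        exact ⟨hx1, hy1⟩)
      have a1 := le_near hT hR h (by linarith) (by linarith) hθ0 hmem.1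
      have a2 := le_near hT hR (hT.symm _ _ h) (by linarith) (by linarith) hθ0 hmem.2
      rw [eval_sub, eval_sub]
      exact sub_eq_zero.mpr (le_antisymm a1 a2)
    have h2 := congrArg (fun P : Polynomial (Polynomial ℝ) => (P.coeff p).coeff q) key
    simp only [coeff_sub, coeff_poly hT, coeff_zero] at h2
    have h3 : (T.h Z p q : ℝ) = T.h W p q := sub_eq_zero.mp h2
    exact_mod_cast h3

end Pool.Agent.V8H71.HN
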